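import Pool.Agent.HIG8.Main

/-!
Coadjoint orbits of the unitriangular group: for every `N`, the numbers of `U_n(F)`-orbits on the
dual of the strictly upper triangular matrices are polynomials in the order of `F` for all
`n ≤ N` if and only if the numbers of orbits of the whole group `B_n(F)` of invertible upper
triangular matrices on the same space are so.
-/

set_option autoImplicit false

namespace Pool.Agent.Results.MP_875cf4_al.BorelTransfer

/-- The strictly lower triangular matrices `A`; such an `A` stands for the linear form
`X ↦ trace (A * X)` on the strictly upper triangular matrices. -/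
abbrev Form (n : ℕ) (F : Type) [Field F] : Type :=
  {A : Matrix (Fin n) (Fin n) F // ∀ i j, i ≤ j → A i j = 0}

/-- The number of coadjoint orbits of `U_n(F)`. -/
noncomputable def numU (n : ℕ) (F : Type) [Field F] : ℕ :=
  Nat.card (Quot (fun A B : Form n F =>
    ∃ g : Matrix (Fin n) (Fin n) F,
      (∀ i j, j < i → g i j = 0) ∧ (∀ i, g i i = 1) ∧
      ∀ X : Matrix (Fin n) (Fin n) F, (∀ i j, j ≤ i → X i j = 0) →
        Matrix.trace (B.1 * X) = Matrix.trace (A.1 * (g⁻¹ * X * g))))

/-- The number of orbits of `B_n(F)`, the group of all invertible upper triangular matrices, on the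
same space. -/
noncomputable def numB (n : ℕ) (F : Type) [Field F] : ℕ :=
  Nat.card (Quot (fun A B : Form n F =>
    ∃ g : Matrix (Fin n) (Fin n) F,
      (∀ i j, j < i → g i j = 0) ∧ (∀ i, g i i ≠ 0) ∧
      ∀ X : Matrix (Fin n) (Fin n) F, (∀ i j, j ≤ i → X i j = 0) →
        Matrix.trace (B.1 * X) = Matrix.trace (A.1 * (g⁻¹ * X * g))))

/-- For every `N`: `numU n` is a polynomial in the order of the field for every `n ≤ N` if and only
if `numB n` is a polynomial in the order of the field for every `n ≤ N`. -/
theorem result : ∀ N : ℕ,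
    (∀ n ≤ N, ∃ P : Polynomial ℚ, ∀ (F : Type) [Field F] [Fintype F],
      (numU n F : ℚ) = P.eval (Fintype.card F : ℚ)) ↔
    (∀ n ≤ N, ∃ P : Polynomial ℚ, ∀ (F : Type) [Field F] [Fintype F],
      (numB n F : ℚ) = P.eval (Fintype.card F : ℚ)) :=
  fun N => HIG8.level N

end Pool.Agent.Results.MP_875cf4_al.BorelTransfer
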